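import Pool.Agent.helper51.PC.Spec

set_option autoImplicit false

/-! # MP_74cfa5, row HTO -/

namespace Pool.Agent.PC

open MvPolynomial

universe u

section HTOsec

variable {k : Type u} [Field k] {n d : ℕ}

lemma HTO_io (a : RR k n d) : io k n d (algebraMap (RR k n d) (FF k n d) a) =
    algebraMap (AA k n) (KK k n) (a : AA k n) := by
  unfold io
  rw [IsFractionRing.liftAlgHom_apply]
  exact IsFractionRing.lift_algebraMap _ _

lemma HTO_mem (a : AA k n) : a ∈ RR k n d ↔ sg k n d a = a := by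
  unfold RR
  rw [AlgHom.mem_equalizer]
  rfl

lemma HTO_D (D : Derivation k (KK k n) (KK k n)) (j : Fin n)
    (hD : ∀ i, D (xx k n i) = if j = i then 1 else 0) (f : AA k n) :
    ∃ g : AA k n, D (algebraMap (AA k n) (KK k n) f) = algebraMap (AA k n) (KK k n) g := by
  induction f using MvPolynomial.induction_on with
  | C c =>
    refine ⟨0, ?_⟩
    have e : algebraMap (AA k n) (KK k n) (C c) = algebraMap k (KK k n) c := by
      rw [IsScalarTower.algebraMap_apply k (AA k n) (KK k n)]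
      rfl
    rw [e, map_zero]
    exact D.map_algebraMap c
  | add p q hp hq =>
    obtain ⟨g1, h1⟩ := hp
    obtain ⟨g2, h2⟩ := hq
    exact ⟨g1 + g2, by rw [map_add, map_add, h1, h2, map_add]⟩
  | mul_X p i hp =>
    obtain ⟨g1, h1⟩ := hp
    refine ⟨p * (if j = i then 1 else 0) + X i * g1, ?_⟩
    have e : D (algebraMap (AA k n) (KK k n) (X i)) = if j = i then 1 else 0 := hD i
    rw [map_mul, D.leibniz, h1, e, map_add, map_mul, map_mul, smul_eq_mul, smul_eq_mul]
    split_ifs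
    · rw [map_one]
    · rw [map_zero]

lemma HTO_ne (P : Ideal (RR k n d)) (g : RR k n d) (hg : g ∉ P) :
    algebraMap (AA k n) (KK k n) (g : AA k n) ≠ 0 := by
  intro h
  apply hg
  have h1 : (g : AA k n) = 0 := by
    apply IsFractionRing.injective (AA k n) (KK k n)
    rw [h, map_zero]
  have h2 : g = 0 := Subtype.ext h1
  rw [h2]
  exact P.zero_mem

/-- The fractions with a denominator in the complement of `P`. -/
def HTO_S (P : Ideal (RR k n d)) (hP : P.IsPrime) : Subring (KK k n) where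
  carrier := {y | ∃ (a : AA k n) (g : RR k n d), g ∉ P ∧
    y = algebraMap (AA k n) (KK k n) a / algebraMap (AA k n) (KK k n) (g : AA k n)}
  mul_mem' := by
    rintro _ _ ⟨a, g, hg, rfl⟩ ⟨b, h, hh, rfl⟩
    refine ⟨a * b, g * h, ?_, ?_⟩
    · intro h1
      rcases hP.mem_or_mem h1 with h2 | h2
      · exact hg h2
      · exact hh h2
    · rw [map_mul, div_mul_div_comm, Subalgebra.coe_mul, map_mul]
  one_mem' := ⟨1, 1, (Ideal.ne_top_iff_one P).mp hP.ne_top, by simp⟩
  add_mem' := by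
    rintro _ _ ⟨a, g, hg, rfl⟩ ⟨b, h, hh, rfl⟩
    refine ⟨a * h + g * b, g * h, ?_, ?_⟩
    · intro h1
      rcases hP.mem_or_mem h1 with h2 | h2
      · exact hg h2
      · exact hh h2
    · rw [div_add_div _ _ (HTO_ne P g hg) (HTO_ne P h hh), map_add, map_mul, map_mul,
        Subalgebra.coe_mul, map_mul]
  zero_mem' := ⟨0, 1, (Ideal.ne_top_iff_one P).mp hP.ne_top, by simp⟩
  neg_mem' := by
    rintro _ ⟨a, g, hg, rfl⟩
    exact ⟨-a, g, hg, by rw [map_neg, neg_div]⟩

lemma HTO_DS (P : Ideal (RR k n d)) (hP : P.IsPrime) (D : Derivation k (KK k n) (KK k n)) (j : Fin n)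
    (hD : ∀ i, D (xx k n i) = if j = i then 1 else 0) (y : KK k n) (hy : y ∈ HTO_S P hP) :
    D y ∈ HTO_S P hP := by
  obtain ⟨a, g, hg, rfl⟩ := hy
  obtain ⟨a', ha⟩ := HTO_D D j hD a
  obtain ⟨g', hg'⟩ := HTO_D D j hD (g : AA k n)
  refine ⟨g * a' - a * g', g * g, ?_, ?_⟩
  · intro h1
    rcases hP.mem_or_mem h1 with h2 | h2
    · exact hg h2
    · exact hg h2
  · rw [Derivation.leibniz_div, ha, hg', map_sub, map_mul, map_mul, Subalgebra.coe_mul, map_mul]
    simp only [smul_eq_mul]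
    have h3 := HTO_ne P g hg
    field_simp

lemma HTO_det (S : Subring (KK k n)) (M : Matrix (Fin n) (Fin n) (KK k n)) (h : ∀ i j, M i j ∈ S) :
    M.det ∈ S := by
  have e : M = (Matrix.of fun i j => (⟨M i j, h i j⟩ : S)).map S.subtype := by
    ext i j
    rfl
  rw [e]
  have := RingHom.map_det S.subtype (Matrix.of fun i j => (⟨M i j, h i j⟩ : S))
  rw [show (Matrix.of fun i j => (⟨M i j, h i j⟩ : S)).map S.subtype
    = S.subtype.mapMatrix (Matrix.of fun i j => (⟨M i j, h i j⟩ : S)) from rfl, ← this]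
  exact Subtype.property _

end HTOsec

theorem HTO (hSGK : SGK_stmt.{u}) (hFIX : FIX_stmt.{u}) (hJIN : JIN_stmt.{u}) : HTO_stmt.{u} := by
  intro k _ n d p hN hp D hD P O hP hO f hf
  obtain ⟨hs1, s, hs2, hs3, hs4⟩ := hSGK k n d p hN hp
  have hfix := hFIX k n d p hN hs1 s hs2
  have hinv : s (JJ D fun i => io k n d (f i)) = JJ D fun i => io k n d (f i) :=
    hJIN k n d D hD s hs2 hs4 (fun i => io k n d (f i)) (fun i => (hfix _).mpr ⟨f i, rfl⟩)
  have hmem : (JJ D fun i => io k n d (f i)) ∈ HTO_S P hP := by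
    unfold JJ
    apply HTO_det
    intro i j
    apply HTO_DS P hP (D j) j (hD j)
    obtain ⟨a, t, ht, e⟩ := (hO (f i)).mp (hf i)
    refine ⟨a, t, ht, ?_⟩
    show io k n d (f i) = _
    rw [e, map_div₀, HTO_io, HTO_io]
  obtain ⟨a, g, hg, e⟩ := hmem
  have h1 : sg k n d a = a := by
    rw [e, map_div₀, hs2 a, hs2 (g : AA k n), (HTO_mem (g : AA k n)).mp g.2] at hinv
    apply IsFractionRing.injective (AA k n) (KK k n)
    exact (div_left_inj' (HTO_ne P g hg)).mp hinv
  refine ⟨algebraMap (RR k n d) (FF k n d) ⟨a, (HTO_mem a).mpr h1⟩ / algebraMap (RR k n d) (FF k n d) g,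
    (hO _).mpr ⟨_, g, hg, rfl⟩, ?_⟩
  rw [map_div₀, HTO_io, HTO_io, e]

end Pool.Agent.PC
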